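import Mathlib

set_option autoImplicit false

open MeasureTheory Complex Metric Set Filter
open scoped ENNReal NNReal Real

namespace Pool.Agent.Hhelper23.Fock

/-- One variable: `|h|^p` is subharmonic for every `p > 0`. -/
lemma norm_rpow_le_circleAverage {h : ℂ → ℂ} (hh : Differentiable ℂ h) {p : ℝ} (hp : 0 < p)
    (c : ℂ) {R : ℝ} (hR : R ≠ 0) :
    ‖h c‖ ^ p ≤ Real.circleAverage (fun z => ‖h z‖ ^ p) c R := by
  have hcont : Continuous fun z => ‖h z‖ ^ p :=
    hh.continuous.norm.rpow_const fun _ => Or.inr hp.le
  by_cases hc : h c = 0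
  · rw [hc, norm_zero, Real.zero_rpow hp.ne']
    exact Real.circleAverage_nonneg_of_nonneg (fun z _ => by positivity)
  have han : AnalyticOnNhd ℂ h univ := fun z _ => hh.analyticAt z
  have hanc : AnalyticOnNhd ℂ h (closedBall c |R|) := fun z _ => hh.analyticAt z
  have hmer : MeromorphicOn h (sphere c |R|) := fun z _ => (hh.analyticAt z).meromorphicAt
  have hjen := AnalyticOnNhd.circleAverage_log_norm hR hanc hc
  have hle : Real.log ‖h c‖ ≤ Real.circleAverage (fun z => Real.log ‖h z‖) c R := by
    rw [hjen]
    have : 0 ≤ ∑ᶠ u, (MeromorphicOn.divisor h (closedBall c |R|) u : ℝ) *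
        Real.log (R * ‖c - u‖⁻¹) := by
      apply finsum_nonneg
      intro u
      by_cases hu : u ∈ closedBall c |R|
      · apply mul_nonneg
        · have := MeromorphicOn.AnalyticOnNhd.divisor_nonneg hanc
          exact_mod_cast this u
        · rw [mem_closedBall, dist_comm, dist_eq_norm] at hu
          rw [← Real.log_abs, abs_mul, abs_inv, abs_norm]
          by_cases h0 : ‖c - u‖ = 0
          · simp [h0]
          · apply Real.log_nonneg
            rw [← div_eq_mul_inv, le_div_iff₀ (lt_of_le_of_ne (norm_nonneg _) (Ne.symm h0)), one_mul]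
            exact hu
      · rw [Function.locallyFinsuppWithin.apply_eq_zero_of_notMem _ hu]
        simp
    linarith
  have hint : CircleIntegrable (fun z => Real.log ‖h z‖) c R := hmer.circleIntegrable_log_norm
  have hne : ∀ᶠ z in codiscreteWithin (sphere c |R|), h z ≠ 0 := by
    have h1 := han.eqOn_zero_or_eventually_ne_zero_of_preconnected isPreconnected_univ
    rcases h1 with h1 | h1
    · exact absurd (h1 (mem_univ c)) hc
    · exact codiscreteWithin_mono (subset_univ _) h1
  -- the exponentiated function
  have hcongr : (fun z => Real.exp (p * Real.log ‖h z‖)) =ᶠ[codiscreteWithin (sphere c |R|)]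
      fun z => ‖h z‖ ^ p := by
    filter_upwards [hne] with z hz
    rw [Real.rpow_def_of_pos (norm_pos_iff.mpr hz), mul_comm]
  have hint2 : CircleIntegrable (fun z => Real.exp (p * Real.log ‖h z‖)) c R := by
    rw [circleIntegrable_congr_codiscreteWithin hcongr]
    exact hcont.continuousOn.circleIntegrable'
  rw [← Real.circleAverage_congr_codiscreteWithin hcongr hR]
  have hexp : Real.exp (Real.circleAverage (fun z => p * Real.log ‖h z‖) c R) ≤
      Real.circleAverage (fun z => Real.exp (p * Real.log ‖h z‖)) c R := by
    rw [Real.circleAverage_eq_intervalAverage, Real.circleAverage_eq_intervalAverage]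
    have h2pi : (0:ℝ) < 2 * π := by positivity
    rw [uIoc_of_le h2pi.le]
    have : NeZero (volume.restrict (Ioc 0 (2 * π))) := ⟨by
      rw [Ne, Measure.restrict_eq_zero]
      rw [Real.volume_Ioc]
      simp [Real.pi_pos]⟩
    have hI1 : IntegrableOn (fun θ => p * Real.log ‖h (circleMap c R θ)‖) (Ioc 0 (2 * π)) := by
      have h1 : IntervalIntegrable (fun θ => Real.log ‖h (circleMap c R θ)‖) volume 0 (2 * π) := hint
      exact ((intervalIntegrable_iff_integrableOn_Ioc_of_le h2pi.le).mp h1).const_mul p
    have hI2 : IntegrableOn (fun θ => Real.exp (p * Real.log ‖h (circleMap c R θ)‖))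
        (Ioc 0 (2 * π)) :=
      (intervalIntegrable_iff_integrableOn_Ioc_of_le h2pi.le).mp hint2
    exact convexOn_exp.map_average_le Real.continuous_exp.continuousOn isClosed_univ (by simp)
      hI1 hI2
  refine le_trans ?_ hexp
  have hav : Real.circleAverage (fun z => p * Real.log ‖h z‖) c R =
      p * Real.circleAverage (fun z => Real.log ‖h z‖) c R := by
    have := Real.circleAverage_fun_smul (a := p) (f := fun z => Real.log ‖h z‖) (c := c) (R := R)
    simpa [smul_eq_mul] using this
  rw [hav, Real.rpow_def_of_pos (norm_pos_iff.mpr hc)]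
  apply Real.exp_le_exp.mpr
  rw [mul_comm]
  exact mul_le_mul_of_nonneg_left hle hp.le

end Pool.Agent.Hhelper23.Fock
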