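import Pool.Agent.Hhelper23.Fock1

set_option autoImplicit false

open MeasureTheory Complex Metric Set Filter
open scoped ENNReal NNReal Real

namespace Pool.Agent.Hhelper23.Fock

variable {n : ℕ}

/-- multiplication by `exp (iθ)` preserves Lebesgue measure on `ℂ^n` -/
lemma measurePreserving_rot (θ : ℝ) :
    MeasurePreserving (fun u : Fin n → ℂ => fun i => (circleMap 0 1 θ) * u i) volume volume := by
  have h1 : MeasurePreserving (fun z : ℂ => circleMap 0 1 θ * z) volume volume := by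
    have h := (rotation (Circle.exp θ)).measurePreserving
    have e : (fun z : ℂ => circleMap 0 1 θ * z) = fun z => rotation (Circle.exp θ) z := by
      funext z
      simp [circleMap, rotation_apply]
    rw [e]
    exact h
  exact volume_preserving_pi (fun _ : Fin n => h1)

lemma rot_preimage_ball (θ r : ℝ) :
    (fun u : Fin n → ℂ => fun i => (circleMap 0 1 θ) * u i) ⁻¹' (ball 0 r) = ball 0 r := by
  have h1 : ‖circleMap 0 1 θ‖ = 1 := by simp
  ext u
  simp only [mem_preimage, mem_ball_zero_iff]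
  have : (fun i => (circleMap 0 1 θ) * u i) = (circleMap 0 1 θ) • u := rfl
  rw [this, norm_smul, h1, one_mul]

/-- Sub-mean value property over polydiscs for `|g|^p`, `g` entire on `ℂ^n`. -/
lemma sub_mean_ball {g : (Fin n → ℂ) → ℂ} (hg : Differentiable ℂ g) {p : ℝ} (hp : 0 < p)
    (w : Fin n → ℂ) (r : ℝ) :
    ENNReal.ofReal (‖g w‖ ^ p) * volume (ball (0 : Fin n → ℂ) r) ≤
      ∫⁻ u in ball w r, ENNReal.ofReal (‖g u‖ ^ p) := by
  have hgc : Continuous g := hg.continuous
  have hpc : Continuous fun u => ‖g u‖ ^ p := hgc.norm.rpow_const fun _ => Or.inr hp.le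
  -- translate to the origin
  have htr : ∫⁻ u in ball w r, ENNReal.ofReal (‖g u‖ ^ p) =
      ∫⁻ u in ball (0 : Fin n → ℂ) r, ENNReal.ofReal (‖g (w + u)‖ ^ p) := by
    have hmp : MeasurePreserving (fun u : Fin n → ℂ => w + u) volume volume :=
      measurePreserving_add_left volume w
    have hpre : (fun u : Fin n → ℂ => w + u) ⁻¹' (ball w r) = ball 0 r := by
      ext u
      simp [mem_ball, dist_eq_norm]
    rw [← hpre]
    exact (hmp.setLIntegral_comp_preimage measurableSet_ball
      (hpc.measurable.ennreal_ofReal)).symm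
  rw [htr]
  have h2pi : (0:ℝ) < 2 * π := by positivity
  -- the average over rotations
  have hrot : ∀ θ : ℝ, ∫⁻ u in ball (0 : Fin n → ℂ) r,
      ENNReal.ofReal (‖g (w + (circleMap 0 1 θ) • u)‖ ^ p) =
      ∫⁻ u in ball (0 : Fin n → ℂ) r, ENNReal.ofReal (‖g (w + u)‖ ^ p) := by
    intro θ
    have h := (measurePreserving_rot (n := n) θ).setLIntegral_comp_preimage
      (measurableSet_ball (x := (0 : Fin n → ℂ)) (ε := r))
      (f := fun u => ENNReal.ofReal (‖g (w + u)‖ ^ p))
      ((hpc.comp (continuous_const.add continuous_id)).measurable.ennreal_ofReal)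
    rw [rot_preimage_ball] at h
    exact h
  have hline : ∀ u : Fin n → ℂ, ENNReal.ofReal (‖g w‖ ^ p) * ENNReal.ofReal (2 * π) ≤
      ∫⁻ θ in Ioc 0 (2 * π), ENNReal.ofReal (‖g (w + (circleMap 0 1 θ) • u)‖ ^ p) := by
    intro u
    have hd : Differentiable ℂ (fun l : ℂ => g (w + l • u)) := by
      apply hg.comp
      fun_prop
    have h1 := norm_rpow_le_circleAverage hd hp 0 (R := 1) one_ne_zero
    have hcont : Continuous fun θ : ℝ => ‖g (w + (circleMap 0 1 θ) • u)‖ ^ p := by
      apply hpc.comp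
      have := continuous_circleMap 0 1
      fun_prop
    rw [← ofReal_integral_eq_lintegral_ofReal]
    · rw [← ENNReal.ofReal_mul (by positivity)]
      apply ENNReal.ofReal_le_ofReal
      rw [Real.circleAverage_def, intervalIntegral.integral_of_le h2pi.le, zero_smul, add_zero,
        smul_eq_mul] at h1
      have h3 := mul_le_mul_of_nonneg_right h1 h2pi.le
      calc ‖g w‖ ^ p * (2 * π) ≤ _ := h3
        _ = _ := by field_simp
    · exact (hcont.integrableOn_Icc).mono_set Ioc_subset_Icc_self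
    · exact Eventually.of_forall fun θ => by positivity
  -- Tonelli
  have htonelli : ∫⁻ u in ball (0 : Fin n → ℂ) r, (∫⁻ θ in Ioc 0 (2 * π),
        ENNReal.ofReal (‖g (w + (circleMap 0 1 θ) • u)‖ ^ p)) =
      ∫⁻ θ in Ioc 0 (2 * π), (∫⁻ u in ball (0 : Fin n → ℂ) r,
        ENNReal.ofReal (‖g (w + (circleMap 0 1 θ) • u)‖ ^ p)) := by
    apply lintegral_lintegral_swap
    apply Measurable.aemeasurable
    apply Measurable.ennreal_ofReal
    apply Continuous.measurable
    apply hpc.comp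
    have := continuous_circleMap 0 1
    fun_prop
  have hfin : ENNReal.ofReal (2 * π) ≠ 0 := by
    simp [Real.pi_pos]
  have hfin2 : ENNReal.ofReal (2 * π) ≠ ∞ := ENNReal.ofReal_ne_top
  have key : (ENNReal.ofReal (‖g w‖ ^ p) * volume (ball (0 : Fin n → ℂ) r)) * ENNReal.ofReal (2 * π) ≤
      (∫⁻ u in ball (0 : Fin n → ℂ) r, ENNReal.ofReal (‖g (w + u)‖ ^ p)) * ENNReal.ofReal (2 * π) := by
    calc (ENNReal.ofReal (‖g w‖ ^ p) * volume (ball (0 : Fin n → ℂ) r)) * ENNReal.ofReal (2 * π)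
        = ∫⁻ _ in ball (0 : Fin n → ℂ) r, (ENNReal.ofReal (‖g w‖ ^ p) * ENNReal.ofReal (2 * π)) := by
          rw [setLIntegral_const]; ring
      _ ≤ ∫⁻ u in ball (0 : Fin n → ℂ) r, (∫⁻ θ in Ioc 0 (2 * π),
          ENNReal.ofReal (‖g (w + (circleMap 0 1 θ) • u)‖ ^ p)) := lintegral_mono hline
      _ = ∫⁻ θ in Ioc 0 (2 * π), (∫⁻ u in ball (0 : Fin n → ℂ) r,
        ENNReal.ofReal (‖g (w + (circleMap 0 1 θ) • u)‖ ^ p)) := htonelli
      _ = ∫⁻ _ in Ioc 0 (2 * π), (∫⁻ u in ball (0 : Fin n → ℂ) r,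
        ENNReal.ofReal (‖g (w + u)‖ ^ p)) := by simp_rw [hrot]
      _ = _ := by rw [setLIntegral_const, Real.volume_Ioc, sub_zero]
  exact (ENNReal.mul_le_mul_iff_left hfin hfin2).mp key

end Pool.Agent.Hhelper23.Fock
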