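import Pool.Agent.Hhelper23.Fock2

set_option autoImplicit false

open MeasureTheory Complex Metric Set Filter
open scoped ENNReal NNReal Real

namespace Pool.Agent.Hhelper23.Fock

variable {n : ℕ}

/-- `|z|^2 = |z_1|^2 + ... + |z_n|^2` on `ℂ^n` -/
noncomputable def sqn (z : Fin n → ℂ) : ℝ := ∑ k, ‖z k‖ ^ 2

/-- the radial derivative `Rf(z) = ∑_k z_k ∂f/∂z_k (z)` -/
noncomputable def radial (f : (Fin n → ℂ) → ℂ) (z : Fin n → ℂ) : ℂ :=
  ∑ k, z k * fderiv ℂ f z (Pi.single k 1)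

/-- the weighted modulus `|g(z)| (1+|z|^2)^{-m} exp(-α|z|^2/2)` -/
noncomputable def Phi (α : ℝ) (m : ℕ) (g : (Fin n → ℂ) → ℂ) (z : Fin n → ℂ) : ℝ :=
  ‖g z‖ / (1 + sqn z) ^ m * Real.exp (-(α * sqn z / 2))

lemma sqn_nonneg (z : Fin n → ℂ) : 0 ≤ sqn z := Finset.sum_nonneg fun _ _ => by positivity

lemma one_add_sqn_pos (z : Fin n → ℂ) : 0 < 1 + sqn z := by linarith [sqn_nonneg z]

lemma sqn_smul (c : ℂ) (z : Fin n → ℂ) : sqn (c • z) = ‖c‖ ^ 2 * sqn z := by
  simp only [sqn, Pi.smul_apply, smul_eq_mul, norm_mul, mul_pow, Finset.mul_sum]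

lemma continuous_sqn : Continuous (sqn : (Fin n → ℂ) → ℝ) := by
  unfold sqn
  fun_prop

lemma Phi_nonneg (α : ℝ) (m : ℕ) (g : (Fin n → ℂ) → ℂ) (z : Fin n → ℂ) : 0 ≤ Phi α m g z := by
  unfold Phi
  have := one_add_sqn_pos z
  positivity

lemma continuous_Phi (α : ℝ) (m : ℕ) {g : (Fin n → ℂ) → ℂ} (hg : Continuous g) :
    Continuous (Phi α m g) := by
  unfold Phi
  apply Continuous.mul
  · apply Continuous.div hg.norm
    · exact (continuous_const.add continuous_sqn).pow m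
    · intro z
      exact pow_ne_zero _ (one_add_sqn_pos z).ne'
  · apply Real.continuous_exp.comp
    exact ((continuous_const.mul continuous_sqn).div_const 2).neg

lemma norm_eq_Phi (α : ℝ) (m : ℕ) (g : (Fin n → ℂ) → ℂ) (z : Fin n → ℂ) :
    ‖g z‖ = Phi α m g z * ((1 + sqn z) ^ m * Real.exp (α * sqn z / 2)) := by
  unfold Phi
  have h := pow_pos (one_add_sqn_pos z) m
  rw [Real.exp_neg]
  field_simp

lemma norm_sq_le_sqn (z : Fin n → ℂ) : ‖z‖ ^ 2 ≤ sqn z := by
  have h : ‖z‖ ≤ Real.sqrt (sqn z) := by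
    rw [pi_norm_le_iff_of_nonneg (Real.sqrt_nonneg _)]
    intro i
    apply Real.le_sqrt_of_sq_le
    exact Finset.single_le_sum (f := fun k => ‖z k‖ ^ 2) (fun _ _ => by positivity) (Finset.mem_univ i)
  calc ‖z‖ ^ 2 ≤ (Real.sqrt (sqn z)) ^ 2 := by gcongr
    _ = sqn z := Real.sq_sqrt (sqn_nonneg z)

lemma sqn_le (z : Fin n → ℂ) : sqn z ≤ n * ‖z‖ ^ 2 := by
  unfold sqn
  calc ∑ k, ‖z k‖ ^ 2 ≤ ∑ _k : Fin n, ‖z‖ ^ 2 := by
        apply Finset.sum_le_sum
        intro i _
        have := norm_le_pi_norm z i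
        gcongr
    _ = n * ‖z‖ ^ 2 := by simp

lemma sqn_add_le (u v : Fin n → ℂ) : sqn (u + v) ≤ 2 * sqn u + 2 * sqn v := by
  unfold sqn
  rw [Finset.mul_sum, Finset.mul_sum, ← Finset.sum_add_distrib]
  apply Finset.sum_le_sum
  intro i _
  have h : ‖(u + v) i‖ ≤ ‖u i‖ + ‖v i‖ := norm_add_le _ _
  nlinarith [norm_nonneg ((u + v) i), norm_nonneg (u i), norm_nonneg (v i), sq_nonneg (‖u i‖ - ‖v i‖)]

/-- comparability of the polynomial weights at distance at most one -/
lemma one_add_sqn_le (u w : Fin n → ℂ) (h : ‖u - w‖ ≤ 1) :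
    1 + sqn u ≤ (2 * n + 2) * (1 + sqn w) := by
  have h1 := sqn_add_le w (u - w)
  rw [add_sub_cancel] at h1
  have h2 := sqn_le (u - w)
  have h3 : ‖u - w‖ ^ 2 ≤ 1 := by
    have := norm_nonneg (u - w)
    nlinarith
  have h4 := sqn_nonneg w
  have hn : (0:ℝ) ≤ n := Nat.cast_nonneg n
  nlinarith [mul_nonneg hn h4]

/-- the bilinear pairing `∑ u_k conj(w_k)` -/
noncomputable def pair (w u : Fin n → ℂ) : ℂ := ∑ k, u k * (starRingEnd ℂ) (w k)

lemma differentiable_pair (w : Fin n → ℂ) : Differentiable ℂ (pair w) := by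
  unfold pair
  fun_prop

lemma sqn_sub (w u : Fin n → ℂ) : sqn (u - w) = sqn u - 2 * (pair w u).re + sqn w := by
  unfold sqn pair
  rw [Complex.re_sum, Finset.mul_sum, ← Finset.sum_sub_distrib, ← Finset.sum_add_distrib]
  apply Finset.sum_congr rfl
  intro i _
  simp only [Pi.sub_apply, ← Complex.normSq_eq_norm_sq, Complex.normSq_apply, Complex.mul_re,
    Complex.conj_re, Complex.conj_im, Complex.sub_re, Complex.sub_im]
  ring

lemma pair_self_re (w : Fin n → ℂ) : (pair w w).re = sqn w := by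
  have h := sqn_sub w w
  rw [sub_self] at h
  have h0 : sqn (0 : Fin n → ℂ) = 0 := by simp [sqn]
  rw [h0] at h
  linarith

/-- constant of the pointwise estimate -/
noncomputable def C1 (n : ℕ) (α : ℝ) (m : ℕ) : ℝ := Real.exp (α * n / 2) * (2 * n + 2) ^ m

lemma C1_pos (n : ℕ) (α : ℝ) (m : ℕ) : 0 < C1 n α m := by unfold C1; positivity

/-- Weighted sub-mean value property. -/
lemma Phi_sub_mean {α : ℝ} (hα : 0 < α) (m : ℕ) {g : (Fin n → ℂ) → ℂ} (hg : Differentiable ℂ g)
    {p : ℝ} (hp : 0 < p) (w : Fin n → ℂ) {r : ℝ} (hr1 : r ≤ 1) :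
    ENNReal.ofReal (Phi α m g w ^ p) * volume (ball (0 : Fin n → ℂ) r) ≤
      ENNReal.ofReal (C1 n α m ^ p) * ∫⁻ u in ball w r, ENNReal.ofReal (Phi α m g u ^ p) := by
  set h : (Fin n → ℂ) → ℂ := fun u => g u * Complex.exp (-(α * pair w u)) with hh
  have hd : Differentiable ℂ h := by
    apply hg.mul
    apply Differentiable.cexp
    have := differentiable_pair w
    fun_prop
  have hnorm : ∀ u, ‖h u‖ = ‖g u‖ * Real.exp (-(α * (pair w u).re)) := by
    intro u
    rw [hh]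
    simp only [norm_mul, Complex.norm_exp]
    simp
  set K : ℝ := Real.exp (α * sqn w / 2) / (1 + sqn w) ^ m with hK
  have hKpos : 0 < K := div_pos (Real.exp_pos _) (pow_pos (one_add_sqn_pos w) m)
  have hw : Phi α m g w = K * ‖h w‖ := by
    rw [hnorm, pair_self_re, hK]
    unfold Phi
    have : Real.exp (-(α * sqn w / 2)) = Real.exp (α * sqn w / 2) * Real.exp (-(α * sqn w)) := by
      rw [← Real.exp_add]; congr 1; ring
    rw [this]
    ring
  have hu : ∀ u ∈ ball w r, K * ‖h u‖ ≤ C1 n α m * Phi α m g u := by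
    intro u hu
    have hu1 : ‖u - w‖ ≤ 1 := by
      rw [mem_ball, dist_eq_norm] at hu
      linarith
    have e1 : Real.exp (-(α * (pair w u).re)) =
        Real.exp (-(α * sqn u / 2)) * Real.exp (α * sqn (u - w) / 2) * Real.exp (-(α * sqn w / 2)) := by
      rw [← Real.exp_add, ← Real.exp_add]
      congr 1
      rw [sqn_sub]
      ring
    have e2 : Real.exp (α * sqn (u - w) / 2) ≤ Real.exp (α * n / 2) := by
      apply Real.exp_le_exp.mpr
      have h1 := sqn_le (u - w)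
      have h3 : ‖u - w‖ ^ 2 ≤ 1 := by
        have := norm_nonneg (u - w)
        nlinarith
      have hn : (0:ℝ) ≤ n := Nat.cast_nonneg n
      have : sqn (u - w) ≤ n := by nlinarith
      have := mul_le_mul_of_nonneg_left this hα.le
      linarith
    have e3 : (1 + sqn u) ^ m ≤ (2 * n + 2) ^ m * (1 + sqn w) ^ m := by
      rw [← mul_pow]
      exact pow_le_pow_left₀ (one_add_sqn_pos u).le (one_add_sqn_le u w hu1) m
    have p1 := pow_pos (one_add_sqn_pos u) m
    have p2 := pow_pos (one_add_sqn_pos w) m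
    have e4 : 1 / (1 + sqn w) ^ m ≤ (2 * n + 2) ^ m / (1 + sqn u) ^ m := by
      rw [div_le_div_iff₀ p2 p1]
      linarith
    have e5 : Real.exp (α * sqn w / 2) * Real.exp (-(α * sqn w / 2)) = 1 := by
      rw [← Real.exp_add]; simp
    rw [hnorm, e1, hK]
    unfold C1 Phi
    calc Real.exp (α * sqn w / 2) / (1 + sqn w) ^ m * (‖g u‖ * (Real.exp (-(α * sqn u / 2)) *
            Real.exp (α * sqn (u - w) / 2) * Real.exp (-(α * sqn w / 2))))
        = (Real.exp (α * sqn w / 2) * Real.exp (-(α * sqn w / 2))) *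
          (‖g u‖ * Real.exp (-(α * sqn u / 2))) *
          (Real.exp (α * sqn (u - w) / 2) * (1 / (1 + sqn w) ^ m)) := by ring
      _ ≤ 1 * (‖g u‖ * Real.exp (-(α * sqn u / 2))) *
          (Real.exp (α * n / 2) * ((2 * n + 2) ^ m / (1 + sqn u) ^ m)) := by
          rw [e5]
          gcongr
      _ = _ := by ring
  have hsub := sub_mean_ball hd hp w r
  calc ENNReal.ofReal (Phi α m g w ^ p) * volume (ball (0 : Fin n → ℂ) r)
      = ENNReal.ofReal (K ^ p) * (ENNReal.ofReal (‖h w‖ ^ p) * volume (ball (0 : Fin n → ℂ) r)) := by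
        rw [hw, Real.mul_rpow hKpos.le (norm_nonneg _), ENNReal.ofReal_mul (by positivity), mul_assoc]
    _ ≤ ENNReal.ofReal (K ^ p) * ∫⁻ u in ball w r, ENNReal.ofReal (‖h u‖ ^ p) := by
        gcongr
    _ = ∫⁻ u in ball w r, ENNReal.ofReal ((K * ‖h u‖) ^ p) := by
        rw [← lintegral_const_mul]
        · congr 1
          funext u
          rw [← ENNReal.ofReal_mul (by positivity), Real.mul_rpow hKpos.le (norm_nonneg _)]
        · exact (hd.continuous.norm.rpow_const fun _ => Or.inr hp.le).measurable.ennreal_ofReal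
    _ ≤ ∫⁻ u in ball w r, ENNReal.ofReal ((C1 n α m * Phi α m g u) ^ p) := by
        apply setLIntegral_mono' measurableSet_ball
        intro u hu'
        apply ENNReal.ofReal_le_ofReal
        exact Real.rpow_le_rpow (by positivity) (hu u hu') hp.le
    _ = ENNReal.ofReal (C1 n α m ^ p) * ∫⁻ u in ball w r, ENNReal.ofReal (Phi α m g u ^ p) := by
        rw [← lintegral_const_mul]
        · congr 1
          funext u
          rw [← ENNReal.ofReal_mul (by have := C1_pos n α m; positivity),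
            Real.mul_rpow (C1_pos n α m).le (Phi_nonneg _ _ _ _)]
        · exact ((continuous_Phi α m hg.continuous).rpow_const fun _ => Or.inr hp.le).measurable.ennreal_ofReal

/-! ### Pointwise estimates -/

lemma radial_eq (f : (Fin n → ℂ) → ℂ) (z : Fin n → ℂ) : radial f z = fderiv ℂ f z z := by
  unfold radial
  have : z = ∑ k, z k • (Pi.single k (1:ℂ) : Fin n → ℂ) := by
    funext j
    simp [Finset.sum_apply, Pi.single_apply]
  conv_rhs => rw [this, map_sum]
  apply Finset.sum_congr rfl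
  intro k _
  rw [map_smul, smul_eq_mul]
  rw [← this]

/-- forward pointwise estimate -/
lemma forward_pointwise {α : ℝ} (hα : 0 < α) (m : ℕ) {g : (Fin n → ℂ) → ℂ}
    (hg : Differentiable ℂ g) (z : Fin n → ℂ) (M : ℝ)
    (hM : ∀ u, ‖u - z‖ ≤ 1 → Phi α m g u ≤ M) :
    Phi α (m + 1) (radial g) z ≤ (Real.exp (3 * α / 2) * (2 * n + 2) ^ m) * M := by
  have hM0 : 0 ≤ M := (Phi_nonneg α m g z).trans (hM z (by simp))
  set δ : ℝ := 1 / (1 + sqn z) with hδ
  have hs0 := sqn_nonneg z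
  have h1s := one_add_sqn_pos z
  have hδpos : 0 < δ := by positivity
  have hδ1 : δ ≤ 1 := by rw [hδ, div_le_one h1s]; linarith
  have hδs : δ * sqn z ≤ 1 := by
    rw [hδ, one_div, ← div_eq_inv_mul, div_le_one h1s]; linarith
  set φ : ℂ → ℂ := fun l => g (z + l • z) with hφ
  have hφd : Differentiable ℂ φ := by
    apply hg.comp
    fun_prop
  have hder : deriv φ 0 = radial g z := by
    rw [radial_eq]
    have h1 : HasDerivAt (fun l : ℂ => z + l • z) z 0 := by
      have := ((hasDerivAt_id (0:ℂ)).smul_const z).const_add z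
      simpa using this
    have h2 : HasFDerivAt g (fderiv ℂ g (z + (0:ℂ) • z)) (z + (0:ℂ) • z) :=
      (hg _).hasFDerivAt
    have h3 := h2.comp_hasDerivAt (0:ℂ) h1
    have h4 := h3.deriv
    simpa [hφ, Function.comp_def] using h4
  have hbound : ∀ l ∈ sphere (0:ℂ) δ, ‖φ l‖ ≤
      M * ((2 * n + 2) ^ m * (1 + sqn z) ^ m * (Real.exp (3 * α / 2) * Real.exp (α * sqn z / 2))) := by
    intro l hl
    have hln : ‖l‖ = δ := by simpa using hl
    set u := z + l • z with hu
    have hdist : ‖u - z‖ ≤ 1 := by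
      rw [hu, add_sub_cancel_left, norm_smul, hln]
      have h1 : (δ * ‖z‖) ^ 2 ≤ 1 := by
        rw [mul_pow]
        have := norm_sq_le_sqn z
        have h2 : δ ^ 2 ≤ δ := by nlinarith
        calc δ ^ 2 * ‖z‖ ^ 2 ≤ δ * sqn z := by gcongr
          _ ≤ 1 := hδs
      have h2 : 0 ≤ δ * ‖z‖ := by positivity
      nlinarith
    have hsu : sqn u ≤ sqn z + 3 := by
      have : u = (1 + l) • z := by rw [hu, add_smul, one_smul]
      rw [this, sqn_smul]
      have h1 : ‖1 + l‖ ≤ 1 + δ := by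
        calc ‖1 + l‖ ≤ ‖(1:ℂ)‖ + ‖l‖ := norm_add_le _ _
          _ = 1 + δ := by rw [norm_one, hln]
      have h2 : ‖1 + l‖ ^ 2 ≤ (1 + δ) ^ 2 := by gcongr
      calc ‖1 + l‖ ^ 2 * sqn z ≤ (1 + δ) ^ 2 * sqn z := by gcongr
        _ = sqn z + 2 * (δ * sqn z) + δ * (δ * sqn z) := by ring
        _ ≤ sqn z + 2 * 1 + 1 * 1 := by gcongr
        _ = sqn z + 3 := by ring
    have h1 : φ l = g u := rfl
    rw [h1, norm_eq_Phi α m g u]
    have e1 : (1 + sqn u) ^ m ≤ (2 * n + 2) ^ m * (1 + sqn z) ^ m := by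
      rw [← mul_pow]
      exact pow_le_pow_left₀ (one_add_sqn_pos u).le (one_add_sqn_le u z hdist) m
    have e2 : Real.exp (α * sqn u / 2) ≤ Real.exp (3 * α / 2) * Real.exp (α * sqn z / 2) := by
      rw [← Real.exp_add]
      apply Real.exp_le_exp.mpr
      have := mul_le_mul_of_nonneg_left hsu hα.le
      linarith
    have e3 := hM u hdist
    have e4 := one_add_sqn_pos u
    have e5 := Phi_nonneg α m g u
    gcongr
  have hc := Complex.norm_deriv_le_of_forall_mem_sphere_norm_le hδpos hφd.diffContOnCl hbound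
  rw [hder] at hc
  unfold Phi
  have hp := pow_pos h1s m
  have e5 : Real.exp (α * sqn z / 2) * Real.exp (-(α * sqn z / 2)) = 1 := by
    rw [← Real.exp_add]; simp
  calc ‖radial g z‖ / (1 + sqn z) ^ (m + 1) * Real.exp (-(α * sqn z / 2))
      ≤ (M * ((2 * n + 2) ^ m * (1 + sqn z) ^ m * (Real.exp (3 * α / 2) * Real.exp (α * sqn z / 2))) / δ)
          / (1 + sqn z) ^ (m + 1) * Real.exp (-(α * sqn z / 2)) := by gcongr
    _ = (Real.exp (3 * α / 2) * (2 * n + 2) ^ m) * M * 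
          (Real.exp (α * sqn z / 2) * Real.exp (-(α * sqn z / 2))) := by
        rw [hδ, pow_succ]
        field_simp
    _ = _ := by rw [e5, mul_one]

/-- reverse pointwise estimate -/
lemma reverse_pointwise {α : ℝ} (hα : 0 < α) (m : ℕ) {g : (Fin n → ℂ) → ℂ}
    (hg : Differentiable ℂ g) (z : Fin n → ℂ) (t : ℝ) (ht : 2 ≤ t) (hzt : sqn z = t ^ 2) (M : ℝ)
    (hM : ∀ u, ‖u - z‖ ≤ 1 → Phi α (m + 1) (radial g) u ≤ M) :
    Phi α m g z ≤ Real.exp (-(α * t / 2)) * Phi α m g (((1 - 1 / t : ℝ) : ℂ) • z) + (5 / α) * M := by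
  have hM0 : 0 ≤ M := (Phi_nonneg α (m + 1) (radial g) z).trans (hM z (by simp))
  have htpos : 0 < t := by linarith
  set s : ℝ := 1 - 1 / t with hs
  have hs_half : 1 / 2 ≤ s := by
    have : 1 / t ≤ 1 / 2 := one_div_le_one_div_of_le (by norm_num) ht
    linarith
  have hs1 : s ≤ 1 := by
    have : 0 < 1 / t := by positivity
    linarith
  have hznorm : ‖z‖ ≤ t := by
    have := norm_sq_le_sqn z
    rw [hzt] at this
    exact abs_le_of_sq_le_sq' this htpos.le |>.2
  set f : ℝ → ℂ := fun τ => g ((τ : ℂ) • z) - g ((s : ℂ) • z) with hf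
  set f' : ℝ → ℂ := fun τ => fderiv ℂ g ((τ : ℂ) • z) z with hf'
  have hfd : ∀ τ : ℝ, HasDerivAt f (f' τ) τ := by
    intro τ
    have h1 : HasDerivAt (fun l : ℝ => (l : ℂ) • z) z τ := by
      have := (Complex.ofRealCLM.hasDerivAt (x := τ)).smul_const z
      simpa using this
    have h2 : HasFDerivAt g ((fderiv ℂ g ((τ : ℂ) • z)).restrictScalars ℝ) ((τ : ℂ) • z) :=
      (hg _).hasFDerivAt.restrictScalars ℝ
    have h3 := h2.comp_hasDerivAt τ h1
    exact h3.sub_const _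
  set B' : ℝ → ℝ := fun τ => (2 * M * (1 + sqn z) ^ (m + 1)) * Real.exp (α * τ * sqn z / 2) with hB'
  set B : ℝ → ℝ := fun τ => (2 * M * (1 + sqn z) ^ (m + 1)) *
    ((2 / (α * sqn z)) * Real.exp (α * τ * sqn z / 2)) with hB
  have hsz : 0 < sqn z := by rw [hzt]; positivity
  have hBd : ∀ τ, HasDerivAt B (B' τ) τ := by
    intro τ
    have h1 : HasDerivAt (fun τ : ℝ => α * τ * sqn z / 2) (α * sqn z / 2) τ := by
      have := (((hasDerivAt_id τ).const_mul α).mul_const (sqn z)).div_const 2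
      simpa using this
    have h2 := ((h1.exp.const_mul (2 / (α * sqn z))).const_mul (2 * M * (1 + sqn z) ^ (m + 1)))
    refine h2.congr_deriv ?_
    simp only [hB']
    field_simp
  have hbd : ∀ τ ∈ Ico s 1, ‖f' τ‖ ≤ B' τ := by
    intro τ hτ
    have hτ1 : τ ≤ 1 := hτ.2.le
    have hτh : 1 / 2 ≤ τ := hs_half.trans hτ.1
    have hτ0 : 0 < τ := by linarith
    set u : Fin n → ℂ := (τ : ℂ) • z with hu
    have hdist : ‖u - z‖ ≤ 1 := by
      have : u - z = ((τ - 1 : ℝ) : ℂ) • z := by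
        rw [hu]; push_cast; rw [sub_smul, one_smul]
      rw [this, norm_smul, Complex.norm_real, Real.norm_eq_abs, abs_of_nonpos (by linarith)]
      have h1 : -(τ - 1) ≤ 1 / t := by
        have := hτ.1
        rw [hs] at this
        linarith
      calc -(τ - 1) * ‖z‖ ≤ 1 / t * t := by gcongr
        _ = 1 := by field_simp
    have h1 : radial g u = (τ : ℂ) * f' τ := by
      rw [radial_eq, hf']
      conv_lhs => rw [hu]
      rw [map_smul, smul_eq_mul]
    have h2 : ‖f' τ‖ ≤ 2 * ‖radial g u‖ := by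
      rw [h1, norm_mul, Complex.norm_real, Real.norm_eq_abs, abs_of_pos hτ0]
      nlinarith [norm_nonneg (f' τ)]
    have h3 := norm_eq_Phi α (m + 1) (radial g) u
    have h4 := hM u hdist
    have hsu : sqn u = τ ^ 2 * sqn z := by
      rw [hu, sqn_smul, Complex.norm_real, Real.norm_eq_abs, sq_abs]
    have h5 : sqn u ≤ τ * sqn z := by
      rw [hsu]
      have : τ ^ 2 ≤ τ := by nlinarith
      gcongr
    have h6 : sqn u ≤ sqn z := by nlinarith
    have h7 := one_add_sqn_pos u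
    have h8 := Phi_nonneg α (m + 1) (radial g) u
    calc ‖f' τ‖ ≤ 2 * ‖radial g u‖ := h2
      _ = 2 * (Phi α (m + 1) (radial g) u * ((1 + sqn u) ^ (m + 1) * Real.exp (α * sqn u / 2))) := by
          rw [h3]
      _ ≤ 2 * (M * ((1 + sqn z) ^ (m + 1) * Real.exp (α * (τ * sqn z) / 2))) := by
          gcongr
      _ = B' τ := by
          rw [hB']; ring_nf
  have hmain := image_norm_le_of_norm_deriv_right_le_deriv_boundary (f := f) (f' := f') (a := s) (b := 1)
    (fun τ _ => (hfd τ).continuousAt.continuousWithinAt)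
    (fun τ _ => (hfd τ).hasDerivWithinAt) (B := B) (B' := B')
    (by
      rw [hf, hB]
      simp only [sub_self, norm_zero]
      have := one_add_sqn_pos z
      positivity) hBd hbd
  have h1 := hmain (show (1:ℝ) ∈ Icc s 1 from ⟨hs1, le_rfl⟩)
  have h2 : f 1 = g z - g ((s : ℂ) • z) := by
    rw [hf]; simp
  rw [h2] at h1
  have h3 : ‖g z‖ ≤ ‖g ((s : ℂ) • z)‖ + B 1 := by
    have := norm_sub_norm_le (g z) (g ((s : ℂ) • z))
    linarith
  -- weights
  have hsq : sqn ((s : ℂ) • z) = s ^ 2 * sqn z := by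
    rw [sqn_smul, Complex.norm_real, Real.norm_eq_abs, sq_abs]
  have hsle : sqn ((s : ℂ) • z) ≤ sqn z := by
    rw [hsq]
    have : s ^ 2 ≤ 1 := by nlinarith
    nlinarith
  have hgap : sqn ((s : ℂ) • z) + t ≤ sqn z := by
    rw [hsq, hzt, hs]
    have : (1 - 1 / t) ^ 2 * t ^ 2 = (t - 1) ^ 2 := by field_simp
    rw [this]
    nlinarith
  have hpz := pow_pos (one_add_sqn_pos z) m
  have hps := pow_pos (one_add_sqn_pos ((s : ℂ) • z)) m
  have hA : ‖g ((s : ℂ) • z)‖ / (1 + sqn z) ^ m * Real.exp (-(α * sqn z / 2)) ≤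
      Real.exp (-(α * t / 2)) * Phi α m g ((s : ℂ) • z) := by
    unfold Phi
    have e1 : Real.exp (-(α * sqn z / 2)) ≤
        Real.exp (-(α * t / 2)) * Real.exp (-(α * sqn ((s : ℂ) • z) / 2)) := by
      rw [← Real.exp_add]
      apply Real.exp_le_exp.mpr
      have := mul_le_mul_of_nonneg_left hgap hα.le
      linarith
    have e2 : (1 + sqn ((s : ℂ) • z)) ^ m ≤ (1 + sqn z) ^ m := by
      have := one_add_sqn_pos ((s : ℂ) • z)
      gcongr
    calc ‖g ((s : ℂ) • z)‖ / (1 + sqn z) ^ m * Real.exp (-(α * sqn z / 2))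
        ≤ ‖g ((s : ℂ) • z)‖ / (1 + sqn ((s : ℂ) • z)) ^ m * 
          (Real.exp (-(α * t / 2)) * Real.exp (-(α * sqn ((s : ℂ) • z) / 2))) := by gcongr
      _ = _ := by ring
  have hBB : B 1 / (1 + sqn z) ^ m * Real.exp (-(α * sqn z / 2)) ≤ (5 / α) * M := by
    have e5 : Real.exp (α * sqn z / 2) * Real.exp (-(α * sqn z / 2)) = 1 := by
      rw [← Real.exp_add]; simp
    have e6 : B 1 / (1 + sqn z) ^ m * Real.exp (-(α * sqn z / 2)) =
        (4 * M / α) * ((1 + sqn z) / sqn z) *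
          (Real.exp (α * sqn z / 2) * Real.exp (-(α * sqn z / 2))) := by
      rw [hB]
      simp only [mul_one]
      rw [pow_succ]
      field_simp
      ring
    rw [e6, e5, mul_one]
    have e7 : (1 + sqn z) / sqn z ≤ 5 / 4 := by
      rw [div_le_div_iff₀ hsz (by norm_num)]
      rw [hzt]
      nlinarith
    calc (4 * M / α) * ((1 + sqn z) / sqn z) ≤ (4 * M / α) * (5 / 4) := by gcongr
      _ = (5 / α) * M := by ring
  calc Phi α m g z = ‖g z‖ / (1 + sqn z) ^ m * Real.exp (-(α * sqn z / 2)) := rfl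
    _ ≤ (‖g ((s : ℂ) • z)‖ + B 1) / (1 + sqn z) ^ m * Real.exp (-(α * sqn z / 2)) := by gcongr
    _ = ‖g ((s : ℂ) • z)‖ / (1 + sqn z) ^ m * Real.exp (-(α * sqn z / 2)) +
        B 1 / (1 + sqn z) ^ m * Real.exp (-(α * sqn z / 2)) := by ring
    _ ≤ _ := add_le_add hA hBB

end Pool.Agent.Hhelper23.Fock
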