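import Pool.Agent.Hhelper23.Fock3

set_option autoImplicit false

open MeasureTheory Complex Metric Set Filter
open scoped ENNReal NNReal Real

namespace Pool.Agent.Hhelper23.Fock

variable {n : ℕ}

lemma add_rpow_le_two {a b p : ℝ} (ha : 0 ≤ a) (hb : 0 ≤ b) (hp : 0 < p) :
    (a + b) ^ p ≤ 2 ^ p * (a ^ p + b ^ p) := by
  rcases le_total a b with h | h
  · calc (a + b) ^ p ≤ (2 * b) ^ p := Real.rpow_le_rpow (by positivity) (by linarith) hp.le
      _ = 2 ^ p * b ^ p := Real.mul_rpow (by norm_num) hb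
      _ ≤ 2 ^ p * (a ^ p + b ^ p) := by
        have : 0 ≤ a ^ p := by positivity
        gcongr
        linarith
  · calc (a + b) ^ p ≤ (2 * a) ^ p := Real.rpow_le_rpow (by positivity) (by linarith) hp.le
      _ = 2 ^ p * a ^ p := Real.mul_rpow (by norm_num) ha
      _ ≤ 2 ^ p * (a ^ p + b ^ p) := by
        have : 0 ≤ b ^ p := by positivity
        gcongr
        linarith

/-- passing from a sup estimate to an estimate in `ENNReal` -/
lemma sup_transfer {X : Type} (P : X → Prop) (a : X → ℝ) (ha : ∀ u, 0 ≤ a u) {b c A p : ℝ}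
    (hb : 0 ≤ b) (hc : 0 ≤ c) (hA : 0 < A) (hp : 0 < p)
    (h : ∀ M : ℝ, (∀ u, P u → a u ≤ M) → b ≤ c + A * M) (J : ℝ≥0∞)
    (hJ : ∀ u, P u → ENNReal.ofReal (a u ^ p) ≤ J) :
    ENNReal.ofReal (b ^ p) ≤
      ENNReal.ofReal (2 ^ p) * (ENNReal.ofReal (c ^ p) + ENNReal.ofReal (A ^ p) * J) := by
  have h2 : 0 < (2:ℝ) ^ p := by positivity
  have hAp : 0 < A ^ p := by positivity
  by_cases hJt : J = ∞
  · rw [hJt, ENNReal.mul_top (by simpa using hAp), add_top, ENNReal.mul_top (by simpa using h2)]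
    exact le_top
  set M : ℝ := J.toReal ^ (1 / p) with hM
  have hM0 : 0 ≤ M := by positivity
  have hMp : M ^ p = J.toReal := by
    rw [hM, ← Real.rpow_mul ENNReal.toReal_nonneg, one_div, inv_mul_cancel₀ hp.ne', Real.rpow_one]
  have h1 : b ≤ c + A * M := by
    apply h
    intro u hu
    have h3 := hJ u hu
    have h4 : a u ^ p ≤ J.toReal := by
      rw [← ENNReal.ofReal_toReal hJt] at h3
      exact (ENNReal.ofReal_le_ofReal_iff ENNReal.toReal_nonneg).mp h3
    rw [← hMp] at h4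
    exact (Real.rpow_le_rpow_iff (ha u) hM0 hp).mp h4
  calc ENNReal.ofReal (b ^ p) ≤ ENNReal.ofReal ((c + A * M) ^ p) :=
        ENNReal.ofReal_le_ofReal (Real.rpow_le_rpow hb h1 hp.le)
    _ ≤ ENNReal.ofReal (2 ^ p * (c ^ p + (A * M) ^ p)) :=
        ENNReal.ofReal_le_ofReal (add_rpow_le_two hc (by positivity) hp)
    _ = ENNReal.ofReal (2 ^ p) * (ENNReal.ofReal (c ^ p) + ENNReal.ofReal (A ^ p) * J) := by
        rw [ENNReal.ofReal_mul h2.le, ENNReal.ofReal_add (by positivity) (by positivity),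
          Real.mul_rpow hA.le hM0, ENNReal.ofReal_mul hAp.le, hMp, ENNReal.ofReal_toReal hJt]

/-- Tonelli for averages over balls of a fixed radius -/
lemma tonelli_ball {Ψ : (Fin n → ℂ) → ℝ≥0∞} (hΨ : Measurable Ψ) (ρ : ℝ) :
    ∫⁻ z, ∫⁻ u in ball z ρ, Ψ u = volume (ball (0 : Fin n → ℂ) ρ) * ∫⁻ u, Ψ u := by
  have hset : MeasurableSet {q : (Fin n → ℂ) × (Fin n → ℂ) | dist q.2 q.1 < ρ} :=
    (isOpen_lt (by fun_prop) continuous_const).measurableSet
  have h1 : ∀ z : Fin n → ℂ, ∫⁻ u in ball z ρ, Ψ u =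
      ∫⁻ u, {q : (Fin n → ℂ) × (Fin n → ℂ) | dist q.2 q.1 < ρ}.indicator (fun q => Ψ q.2) (z, u) := by
    intro z
    rw [← lintegral_indicator measurableSet_ball]
    congr 1
  have h2 : ∀ u : Fin n → ℂ, ∫⁻ z,
      {q : (Fin n → ℂ) × (Fin n → ℂ) | dist q.2 q.1 < ρ}.indicator (fun q => Ψ q.2) (z, u) =
      Ψ u * volume (ball (0 : Fin n → ℂ) ρ) := by
    intro u
    have : (fun z => {q : (Fin n → ℂ) × (Fin n → ℂ) | dist q.2 q.1 < ρ}.indicator
        (fun q => Ψ q.2) (z, u)) = (ball u ρ).indicator (fun _ => Ψ u) := by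
      funext z
      simp only [indicator, mem_ofPred_eq, mem_ball]
      rw [dist_comm z u]
    rw [this, lintegral_indicator measurableSet_ball, setLIntegral_const,
      Measure.addHaar_ball_center]
  simp_rw [h1]
  rw [lintegral_lintegral_swap]
  · simp_rw [h2]
    rw [lintegral_mul_const _ hΨ, mul_comm]
  · apply Measurable.aemeasurable
    exact (hΨ.comp measurable_snd).indicator hset

/-- the constant in the unweighted form of the sub-mean value property -/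
noncomputable def C2 (n : ℕ) (α : ℝ) (m : ℕ) (p r : ℝ) : ℝ≥0∞ :=
  ENNReal.ofReal (C1 n α m ^ p) / volume (ball (0 : Fin n → ℂ) r)

lemma C2_ne_top (n : ℕ) (α : ℝ) (m : ℕ) (p : ℝ) {r : ℝ} (hr : 0 < r) : C2 n α m p r ≠ ∞ := by
  unfold C2
  apply ENNReal.div_ne_top ENNReal.ofReal_ne_top
  exact (measure_ball_pos volume _ hr).ne'

lemma Phi_le_C2 {α : ℝ} (hα : 0 < α) (m : ℕ) {g : (Fin n → ℂ) → ℂ} (hg : Differentiable ℂ g)
    {p : ℝ} (hp : 0 < p) (w : Fin n → ℂ) {r : ℝ} (hr : 0 < r) (hr1 : r ≤ 1) :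
    ENNReal.ofReal (Phi α m g w ^ p) ≤
      C2 n α m p r * ∫⁻ u in ball w r, ENNReal.ofReal (Phi α m g u ^ p) := by
  have h := Phi_sub_mean hα m hg hp w hr1
  have h0 : volume (ball (0 : Fin n → ℂ) r) ≠ 0 := (measure_ball_pos volume _ hr).ne'
  have h1 : volume (ball (0 : Fin n → ℂ) r) ≠ ∞ := measure_ball_lt_top.ne
  unfold C2
  rw [ENNReal.mul_comm_div, ← mul_div_assoc]
  rw [ENNReal.le_div_iff_mul_le (Or.inl h0) (Or.inl h1)]
  exact h

lemma local_sup {α : ℝ} (hα : 0 < α) (m : ℕ) {g : (Fin n → ℂ) → ℂ} (hg : Differentiable ℂ g)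
    {p : ℝ} (hp : 0 < p) (z u : Fin n → ℂ) (hu : ‖u - z‖ ≤ 1) :
    ENNReal.ofReal (Phi α m g u ^ p) ≤
      C2 n α m p 1 * ∫⁻ v in ball z 2, ENNReal.ofReal (Phi α m g v ^ p) := by
  refine (Phi_le_C2 hα m hg hp u one_pos le_rfl).trans ?_
  gcongr
  intro v hv
  rw [mem_ball] at *
  have : dist u z ≤ 1 := by rw [dist_eq_norm]; exact hu
  linarith [dist_triangle v u z]

lemma measurable_PhiP (α : ℝ) (m : ℕ) {g : (Fin n → ℂ) → ℂ} (hg : Differentiable ℂ g)
    {p : ℝ} (hp : 0 < p) : Measurable fun u => ENNReal.ofReal (Phi α m g u ^ p) :=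
  ((continuous_Phi α m hg.continuous).rpow_const fun _ => Or.inr hp.le).measurable.ennreal_ofReal

/-- forward integral estimate -/
lemma forward_lintegral {α : ℝ} (hα : 0 < α) (m : ℕ) {g : (Fin n → ℂ) → ℂ}
    (hg : Differentiable ℂ g) {p : ℝ} (hp : 0 < p)
    (hfin : ∫⁻ z, ENNReal.ofReal (Phi α m g z ^ p) < ∞) :
    ∫⁻ z, ENNReal.ofReal (Phi α (m + 1) (radial g) z ^ p) < ∞ := by
  set A : ℝ := Real.exp (3 * α / 2) * (2 * n + 2) ^ m with hA
  have hApos : 0 < A := by positivity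
  have hpt : ∀ z, ENNReal.ofReal (Phi α (m + 1) (radial g) z ^ p) ≤
      ENNReal.ofReal (2 ^ p) * (ENNReal.ofReal ((0:ℝ) ^ p) + ENNReal.ofReal (A ^ p) *
        (C2 n α m p 1 * ∫⁻ v in ball z 2, ENNReal.ofReal (Phi α m g v ^ p))) := by
    intro z
    apply sup_transfer (fun u => ‖u - z‖ ≤ 1) (Phi α m g) (Phi_nonneg α m g)
      (Phi_nonneg _ _ _ _) le_rfl hApos hp
    · intro M hM
      rw [zero_add]
      exact forward_pointwise hα m hg z M hM
    · intro u hu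
      exact local_sup hα m hg hp z u hu
  refine (lintegral_mono hpt).trans_lt ?_
  rw [Real.zero_rpow hp.ne', ENNReal.ofReal_zero]
  simp only [zero_add]
  have hmeas : Measurable fun z : Fin n → ℂ => ∫⁻ v in ball z 2, ENNReal.ofReal (Phi α m g v ^ p) := by
    have hset : MeasurableSet {q : (Fin n → ℂ) × (Fin n → ℂ) | dist q.2 q.1 < 2} :=
      (isOpen_lt (by fun_prop) continuous_const).measurableSet
    have h1 : (fun z : Fin n → ℂ => ∫⁻ v in ball z 2, ENNReal.ofReal (Phi α m g v ^ p)) =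
      fun z => ∫⁻ v, {q : (Fin n → ℂ) × (Fin n → ℂ) | dist q.2 q.1 < 2}.indicator
        (fun q => ENNReal.ofReal (Phi α m g q.2 ^ p)) (z, v) := by
      funext z
      rw [← lintegral_indicator measurableSet_ball]
      congr 1
    rw [h1]
    exact Measurable.lintegral_prod_right' (((measurable_PhiP α m hg hp).comp measurable_snd).indicator hset)
  rw [lintegral_const_mul _ (Measurable.const_mul (Measurable.const_mul hmeas _) _),
    lintegral_const_mul _ (Measurable.const_mul hmeas _), lintegral_const_mul _ hmeas,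
    tonelli_ball (measurable_PhiP α m hg hp)]
  apply ENNReal.mul_lt_top ENNReal.ofReal_lt_top
  apply ENNReal.mul_lt_top ENNReal.ofReal_lt_top
  apply ENNReal.mul_lt_top (C2_ne_top n α m p one_pos).lt_top
  exact ENNReal.mul_lt_top measure_ball_lt_top hfin

lemma sqn_add_le' (u v : Fin n → ℂ) {ε : ℝ} (hε : 0 < ε) :
    sqn (u + v) ≤ (1 + ε) * sqn u + (1 + 1 / ε) * sqn v := by
  unfold sqn
  rw [Finset.mul_sum, Finset.mul_sum, ← Finset.sum_add_distrib]
  apply Finset.sum_le_sum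
  intro i _
  have h : ‖(u + v) i‖ ≤ ‖u i‖ + ‖v i‖ := norm_add_le _ _
  have h1 : ‖(u + v) i‖ ^ 2 ≤ (‖u i‖ + ‖v i‖) ^ 2 := by gcongr
  refine h1.trans ?_
  have h2 : 2 * ‖u i‖ * ‖v i‖ ≤ ε * ‖u i‖ ^ 2 + 1 / ε * ‖v i‖ ^ 2 := by
    have h3 : 0 ≤ (ε * ‖u i‖ - ‖v i‖) ^ 2 / ε := by positivity
    have h4 : (ε * ‖u i‖ - ‖v i‖) ^ 2 / ε = ε * ‖u i‖ ^ 2 - 2 * ‖u i‖ * ‖v i‖ + 1 / ε * ‖v i‖ ^ 2 := by
      field_simp
      ring
    linarith
  nlinarith

/-- `{ |z| ≤ K }` -/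
def SK (n : ℕ) (K : ℝ) : Set (Fin n → ℂ) := {z | sqn z ≤ K ^ 2}

lemma isCompact_SK (K : ℝ) : IsCompact (SK n K) := by
  apply Metric.isCompact_of_isClosed_isBounded
  · exact isClosed_le continuous_sqn continuous_const
  · rw [isBounded_iff_forall_norm_le]
    refine ⟨|K|, fun z hz => ?_⟩
    have h1 : ‖z‖ ^ 2 ≤ K ^ 2 := (norm_sq_le_sqn z).trans hz
    have h2 := sq_le_sq.mp h1
    rwa [abs_norm] at h2

lemma lintegral_SK_lt_top (α : ℝ) (m : ℕ) {g : (Fin n → ℂ) → ℂ} (hg : Differentiable ℂ g)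
    {p : ℝ} (hp : 0 < p) (K : ℝ) :
    ∫⁻ z in SK n K, ENNReal.ofReal (Phi α m g z ^ p) < ∞ := by
  have hc : Continuous fun u => Phi α m g u ^ p :=
    (continuous_Phi α m hg.continuous).rpow_const fun _ => Or.inr hp.le
  have hi : IntegrableOn (fun u => Phi α m g u ^ p) (SK n K) :=
    hc.continuousOn.integrableOn_compact (isCompact_SK K)
  exact hi.lintegral_lt_top

/-- choice of the cut-off radius -/
lemma exists_radius {α p : ℝ} (hα : 0 < α) (hp : 0 < p) {D : ℝ≥0∞} (hD : D ≠ ∞) :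
    ∃ R : ℝ, 2 ≤ R ∧ D * ENNReal.ofReal (Real.exp (-(α * R / 2)) ^ p) ≤ 1 / 2 := by
  set d : ℝ := D.toReal with hd
  have hd0 : 0 ≤ d := ENNReal.toReal_nonneg
  set R : ℝ := max 2 (4 * d / (p * α)) with hR
  have hR2 : 2 ≤ R := le_max_left _ _
  refine ⟨R, hR2, ?_⟩
  have h1 : 4 * d / (p * α) ≤ R := le_max_right _ _
  rw [div_le_iff₀ (by positivity)] at h1
  set x : ℝ := p * α * R / 2 with hx
  have hx0 : 0 < x := by positivity
  have h2 : 2 * d ≤ x := by rw [hx]; linarith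
  have h3 : Real.exp (-(α * R / 2)) ^ p = Real.exp (-x) := by
    rw [← Real.exp_mul]; congr 1; rw [hx]; ring
  have h4 : d * Real.exp (-x) ≤ 1 / 2 := by
    have h5 := Real.add_one_le_exp x
    rw [Real.exp_neg, ← div_eq_mul_inv, div_le_iff₀ (Real.exp_pos x)]
    linarith
  rw [h3]
  calc D * ENNReal.ofReal (Real.exp (-x)) = ENNReal.ofReal d * ENNReal.ofReal (Real.exp (-x)) := by
        rw [hd, ENNReal.ofReal_toReal hD]
    _ = ENNReal.ofReal (d * Real.exp (-x)) := by rw [ENNReal.ofReal_mul hd0]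
    _ ≤ ENNReal.ofReal (1 / 2) := ENNReal.ofReal_le_ofReal h4
    _ = 1 / 2 := by
        rw [one_div, ENNReal.ofReal_inv_of_pos (by norm_num)]
        simp

/-- geometry of the radial shift -/
lemma shift_geometry (z u : Fin n → ℂ) {t : ℝ} (ht : 2 ≤ t) (hzt : sqn z = t ^ 2)
    (hu : u ∈ ball (((1 - 1 / t : ℝ) : ℂ) • z) (1 / (n + 1 : ℝ))) :
    u ∈ ball z 2 ∧ sqn u ≤ sqn z := by
  have htpos : 0 < t := by linarith
  have hn : (0:ℝ) ≤ n := Nat.cast_nonneg n
  set y : Fin n → ℂ := ((1 - 1 / t : ℝ) : ℂ) • z with hy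
  have hr1 : 1 / (n + 1 : ℝ) ≤ 1 := by
    rw [div_le_one (by positivity)]; linarith
  have hznorm : ‖z‖ ≤ t := by
    have := norm_sq_le_sqn z
    rw [hzt] at this
    exact abs_le_of_sq_le_sq' this htpos.le |>.2
  rw [mem_ball, dist_eq_norm] at hu
  constructor
  · rw [mem_ball, dist_eq_norm]
    have h1 : ‖y - z‖ ≤ 1 := by
      have : y - z = ((-(1 / t) : ℝ) : ℂ) • z := by
        rw [hy]; push_cast; rw [sub_smul, one_smul, neg_smul]; abel
      rw [this, norm_smul, Complex.norm_real, Real.norm_eq_abs, abs_neg, abs_of_pos (by positivity)]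
      calc 1 / t * ‖z‖ ≤ 1 / t * t := by gcongr
        _ = 1 := by field_simp
    calc ‖u - z‖ = ‖(u - y) + (y - z)‖ := by congr 1; abel
      _ ≤ ‖u - y‖ + ‖y - z‖ := norm_add_le _ _
      _ < 2 := by linarith
  · have hε : 0 < 1 / (t - 1) := by
      have : 0 < t - 1 := by linarith
      positivity
    have h1 := sqn_add_le' y (u - y) hε
    rw [add_sub_cancel] at h1
    have h2 : sqn y = (t - 1) ^ 2 := by
      rw [hy, sqn_smul, Complex.norm_real, Real.norm_eq_abs, sq_abs, hzt]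
      field_simp
    have h3 : sqn (u - y) ≤ 1 := by
      have h4 := sqn_le (u - y)
      have h5 : ‖u - y‖ ^ 2 ≤ (1 / (n + 1 : ℝ)) ^ 2 := by gcongr
      have h6 : (n : ℝ) * (1 / (n + 1 : ℝ)) ^ 2 ≤ 1 := by
        rw [div_pow, one_pow, mul_one_div, div_le_one (by positivity)]
        nlinarith
      calc sqn (u - y) ≤ n * ‖u - y‖ ^ 2 := h4
        _ ≤ n * (1 / (n + 1 : ℝ)) ^ 2 := by gcongr
        _ ≤ 1 := h6
    rw [h2] at h1
    have ht1 : 0 < t - 1 := by linarith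
    have e1 : (1 + 1 / (t - 1)) * (t - 1) ^ 2 = t * (t - 1) := by
      field_simp
      ring
    have e2 : 1 + 1 / (1 / (t - 1)) = t := by
      rw [one_div_one_div]; ring
    rw [e1, e2] at h1
    rw [hzt]
    nlinarith

/-- measurability of the ball averages -/
lemma measurable_ball_avg {Ψ : (Fin n → ℂ) → ℝ≥0∞} (hΨ : Measurable Ψ) (ρ : ℝ) :
    Measurable fun z : Fin n → ℂ => ∫⁻ v in ball z ρ, Ψ v := by
  have hset : MeasurableSet {q : (Fin n → ℂ) × (Fin n → ℂ) | dist q.2 q.1 < ρ} :=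
    (isOpen_lt (by fun_prop) continuous_const).measurableSet
  have h1 : (fun z : Fin n → ℂ => ∫⁻ v in ball z ρ, Ψ v) =
    fun z => ∫⁻ v, {q : (Fin n → ℂ) × (Fin n → ℂ) | dist q.2 q.1 < ρ}.indicator
      (fun q => Ψ q.2) (z, v) := by
    funext z
    rw [← lintegral_indicator measurableSet_ball]
    congr 1
  rw [h1]
  exact Measurable.lintegral_prod_right' ((hΨ.comp measurable_snd).indicator hset)

/-- reverse integral estimate -/
lemma reverse_lintegral {α : ℝ} (hα : 0 < α) (m : ℕ) {g : (Fin n → ℂ) → ℂ}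
    (hg : Differentiable ℂ g) (hRg : Differentiable ℂ (radial g)) {p : ℝ} (hp : 0 < p)
    (hfin : ∫⁻ z, ENNReal.ofReal (Phi α (m + 1) (radial g) z ^ p) < ∞) :
    ∫⁻ z, ENNReal.ofReal (Phi α m g z ^ p) < ∞ := by
  have hn : (0:ℝ) ≤ n := Nat.cast_nonneg n
  set Ψ : (Fin n → ℂ) → ℝ≥0∞ := fun z => ENNReal.ofReal (Phi α m g z ^ p) with hΨ
  set G : (Fin n → ℂ) → ℝ≥0∞ := fun z => ENNReal.ofReal (Phi α (m + 1) (radial g) z ^ p) with hG
  have hΨm : Measurable Ψ := measurable_PhiP α m hg hp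
  have hGm : Measurable G := measurable_PhiP α (m + 1) hRg hp
  set r : ℝ := 1 / (n + 1 : ℝ) with hr
  have hr0 : 0 < r := by positivity
  have hr1 : r ≤ 1 := by
    rw [hr, div_le_one (by positivity)]; linarith
  set V : ℝ≥0∞ := volume (ball (0 : Fin n → ℂ) 2) with hV
  have hVfin : V ≠ ∞ := measure_ball_lt_top.ne
  set T : ℝ≥0∞ := ENNReal.ofReal (2 ^ p) with hT
  have hTfin : T ≠ ∞ := ENNReal.ofReal_ne_top
  set D : ℝ≥0∞ := T * (C2 n α m p r * V) with hD
  have hDfin : D ≠ ∞ := ENNReal.mul_ne_top hTfin (ENNReal.mul_ne_top (C2_ne_top n α m p hr0) hVfin)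
  obtain ⟨R, hR2, hRD⟩ := exists_radius hα hp hDfin
  set ε : ℝ≥0∞ := ENNReal.ofReal (Real.exp (-(α * R / 2)) ^ p) with hε
  set A : ℝ := 5 / α with hA
  have hApos : 0 < A := by positivity
  set C3 : ℝ≥0∞ := T * (ENNReal.ofReal (A ^ p) * (C2 n α (m + 1) p 1 * V)) with hC3
  have hC3fin : C3 ≠ ∞ := ENNReal.mul_ne_top hTfin (ENNReal.mul_ne_top ENNReal.ofReal_ne_top
    (ENNReal.mul_ne_top (C2_ne_top n α (m + 1) p one_pos) hVfin))
  -- pointwise bound outside `SK R`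
  have hpt : ∀ K : ℝ, ∀ z ∈ SK n K \ SK n R, Ψ z ≤
      T * (ε * (C2 n α m p r * ∫⁻ v in ball z 2, (SK n K).indicator Ψ v) +
        ENNReal.ofReal (A ^ p) * (C2 n α (m + 1) p 1 * ∫⁻ v in ball z 2, G v)) := by
    intro K z hz
    have hzK : sqn z ≤ K ^ 2 := hz.1
    have hzR : ¬ (sqn z ≤ R ^ 2) := hz.2
    push Not at hzR
    set t : ℝ := Real.sqrt (sqn z) with ht
    have hzt : sqn z = t ^ 2 := (Real.sq_sqrt (sqn_nonneg z)).symm
    have ht0 : 0 ≤ t := Real.sqrt_nonneg _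
    have htR : R ≤ t := by
      rw [hzt] at hzR
      exact (abs_le_of_sq_le_sq' hzR.le ht0).2
    have ht2 : 2 ≤ t := hR2.trans htR
    set y : Fin n → ℂ := ((1 - 1 / t : ℝ) : ℂ) • z with hy
    have h1 := sup_transfer (fun u => ‖u - z‖ ≤ 1) (Phi α (m + 1) (radial g))
      (Phi_nonneg α (m + 1) (radial g)) (b := Phi α m g z)
      (c := Real.exp (-(α * t / 2)) * Phi α m g y) (A := A) (Phi_nonneg _ _ _ _)
      (mul_nonneg (Real.exp_pos _).le (Phi_nonneg _ _ _ _)) hApos hp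
      (fun M hM => reverse_pointwise hα m hg z t ht2 hzt M hM)
      (C2 n α (m + 1) p 1 * ∫⁻ v in ball z 2, G v)
      (fun u hu => local_sup hα (m + 1) hRg hp z u hu)
    refine h1.trans ?_
    gcongr
    rw [Real.mul_rpow (Real.exp_pos _).le (Phi_nonneg _ _ _ _), ENNReal.ofReal_mul (by positivity)]
    have h2 : ENNReal.ofReal (Real.exp (-(α * t / 2)) ^ p) ≤ ε := by
      rw [hε]
      gcongr
    have h3 : ENNReal.ofReal (Phi α m g y ^ p) ≤ C2 n α m p r * ∫⁻ u in ball y r, Ψ u :=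
      Phi_le_C2 hα m hg hp y hr0 hr1
    have h4 : ∫⁻ u in ball y r, Ψ u ≤ ∫⁻ v in ball z 2, (SK n K).indicator Ψ v := by
      calc ∫⁻ u in ball y r, Ψ u = ∫⁻ u in ball y r, (SK n K).indicator Ψ u := by
            apply setLIntegral_congr_fun measurableSet_ball
            intro u hu
            have := (shift_geometry z u ht2 hzt hu).2
            have hmem : u ∈ SK n K := this.trans hzK
            simp [indicator_of_mem hmem]
        _ ≤ ∫⁻ v in ball z 2, (SK n K).indicator Ψ v := by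
            apply lintegral_mono_set
            intro u hu
            exact (shift_geometry z u ht2 hzt hu).1
    exact mul_le_mul' h2 (h3.trans (mul_le_mul_right h4 _))
  -- integrated
  have hint : ∀ K : ℝ, ∫⁻ z in SK n K, Ψ z ≤
      (∫⁻ z in SK n R, Ψ z) + ((1 / 2) * (∫⁻ z in SK n K, Ψ z) + C3 * ∫⁻ z, G z) := by
    intro K
    have hmK : MeasurableSet (SK n K) := (isCompact_SK K).measurableSet
    have hmR : MeasurableSet (SK n R) := (isCompact_SK R).measurableSet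
    have hindm : Measurable ((SK n K).indicator Ψ) := hΨm.indicator hmK
    have h1 : ∫⁻ z in SK n K, Ψ z ≤ (∫⁻ z in SK n R, Ψ z) + ∫⁻ z in SK n K \ SK n R, Ψ z := by
      calc ∫⁻ z in SK n K, Ψ z ≤ ∫⁻ z in (SK n R) ∪ (SK n K \ SK n R), Ψ z := by
            apply lintegral_mono_set
            intro z hz
            by_cases h : z ∈ SK n R
            · exact Or.inl h
            · exact Or.inr ⟨hz, h⟩
        _ ≤ _ := lintegral_union_le _ _ _
    refine h1.trans ?_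
    gcongr
    calc ∫⁻ z in SK n K \ SK n R, Ψ z
        ≤ ∫⁻ z in SK n K \ SK n R,
          T * (ε * (C2 n α m p r * ∫⁻ v in ball z 2, (SK n K).indicator Ψ v) +
            ENNReal.ofReal (A ^ p) * (C2 n α (m + 1) p 1 * ∫⁻ v in ball z 2, G v)) :=
          setLIntegral_mono' (hmK.diff hmR) (hpt K)
      _ ≤ ∫⁻ z, T * (ε * (C2 n α m p r * ∫⁻ v in ball z 2, (SK n K).indicator Ψ v) +
            ENNReal.ofReal (A ^ p) * (C2 n α (m + 1) p 1 * ∫⁻ v in ball z 2, G v)) :=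
          setLIntegral_le_lintegral _ _
      _ = T * (ε * (C2 n α m p r * (V * ∫⁻ v, (SK n K).indicator Ψ v)) +
            ENNReal.ofReal (A ^ p) * (C2 n α (m + 1) p 1 * (V * ∫⁻ v, G v))) := by
          have m1 := measurable_ball_avg hindm 2
          have m2 := measurable_ball_avg hGm 2
          rw [lintegral_const_mul _ (by fun_prop), lintegral_add_left (by fun_prop),
            lintegral_const_mul _ (by fun_prop), lintegral_const_mul _ m1,
            lintegral_const_mul _ (by fun_prop), lintegral_const_mul _ m2,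
            tonelli_ball hindm, tonelli_ball hGm]
      _ = (D * ε) * (∫⁻ z in SK n K, Ψ z) + C3 * ∫⁻ z, G z := by
          rw [lintegral_indicator hmK, hD, hC3]
          ring
      _ ≤ (1 / 2) * (∫⁻ z in SK n K, Ψ z) + C3 * ∫⁻ z, G z := by
          gcongr
  set B : ℝ≥0∞ := 2 * ((∫⁻ z in SK n R, Ψ z) + C3 * ∫⁻ z, G z) with hB
  have hBfin : B < ∞ := by
    apply ENNReal.mul_lt_top (by simp)
    apply ENNReal.add_lt_top.mpr
    exact ⟨lintegral_SK_lt_top α m hg hp R, ENNReal.mul_lt_top hC3fin.lt_top hfin⟩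
  have hbound : ∀ K : ℝ, ∫⁻ z in SK n K, Ψ z ≤ B := by
    intro K
    have h1 := hint K
    have hI : ∫⁻ z in SK n K, Ψ z ≠ ∞ := (lintegral_SK_lt_top α m hg hp K).ne
    set I : ℝ≥0∞ := ∫⁻ z in SK n K, Ψ z with hIdef
    have hX : (∫⁻ z in SK n R, Ψ z) + C3 * ∫⁻ z, G z ≠ ∞ := by
      apply ENNReal.add_ne_top.mpr
      exact ⟨(lintegral_SK_lt_top α m hg hp R).ne, ENNReal.mul_ne_top hC3fin hfin.ne⟩
    set Xc : ℝ≥0∞ := (∫⁻ z in SK n R, Ψ z) + C3 * ∫⁻ z, G z with hXc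
    have h2 : I ≤ (1 / 2) * I + Xc := by
      calc I ≤ _ := h1
        _ = (1 / 2) * I + Xc := by rw [hXc]; ring
    -- convert to reals
    rw [← ENNReal.ofReal_toReal hI, ← ENNReal.ofReal_toReal hX] at h2
    have h3 : I.toReal ≤ (1 / 2) * I.toReal + Xc.toReal := by
      have e : (1 / 2 : ℝ≥0∞) = ENNReal.ofReal (1 / 2) := by
        rw [one_div, one_div, ENNReal.ofReal_inv_of_pos (by norm_num)]
        simp
      rw [e, ← ENNReal.ofReal_mul (by norm_num), ← ENNReal.ofReal_add (by positivity) (by positivity)] at h2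
      exact (ENNReal.ofReal_le_ofReal_iff (by positivity)).mp h2
    have h4 : I.toReal ≤ 2 * Xc.toReal := by linarith
    rw [hB, ← ENNReal.ofReal_toReal hI]
    calc ENNReal.ofReal I.toReal ≤ ENNReal.ofReal (2 * Xc.toReal) := ENNReal.ofReal_le_ofReal h4
      _ = 2 * Xc := by
        rw [ENNReal.ofReal_mul (by norm_num), ENNReal.ofReal_toReal hX]
        simp
  -- monotone convergence
  have hmono : Monotone fun k : ℕ => SK n (k : ℝ) := by
    intro a b hab z hz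
    have h1 : (a:ℝ) ≤ b := by exact_mod_cast hab
    have h2 : (0:ℝ) ≤ a := Nat.cast_nonneg a
    have : (a:ℝ) ^ 2 ≤ (b:ℝ) ^ 2 := by gcongr
    exact le_trans hz this
  have hunion : ⋃ k : ℕ, SK n (k : ℝ) = univ := by
    ext z
    simp only [mem_iUnion, mem_univ, iff_true]
    obtain ⟨k, hk⟩ := exists_nat_ge (Real.sqrt (sqn z))
    refine ⟨k, ?_⟩
    show sqn z ≤ (k:ℝ) ^ 2
    calc sqn z = (Real.sqrt (sqn z)) ^ 2 := (Real.sq_sqrt (sqn_nonneg z)).symm
      _ ≤ (k:ℝ) ^ 2 := by gcongr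
  have hlim : ∫⁻ z, Ψ z = ⨆ k : ℕ, ∫⁻ z in SK n (k:ℝ), Ψ z := by
    rw [← setLIntegral_univ, ← hunion]
    exact setLIntegral_iUnion_of_directed Ψ (hmono.directed_le)
  rw [hlim]
  exact lt_of_le_of_lt (iSup_le fun k : ℕ => hbound (k : ℝ)) hBfin

end Pool.Agent.Hhelper23.Fock
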