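import Pool.Agent.Hhelper23.Fock4

set_option autoImplicit false

open MeasureTheory Complex Metric Set Filter
open scoped ENNReal NNReal Real

namespace Pool.Agent.Hhelper23.Fock

variable {n : ℕ}

/-- local bound for the derivative of an entire function of several variables -/
lemma exists_fderiv_bound {f : (Fin n → ℂ) → ℂ} (hf : Differentiable ℂ f) (z : Fin n → ℂ) (ρ : ℝ) :
    ∃ L : ℝ, 0 ≤ L ∧ ∀ y ∈ closedBall z ρ, ‖fderiv ℂ f y‖ ≤ L := by
  obtain ⟨M, hM⟩ := (isCompact_closedBall z (ρ + 1)).exists_bound_of_continuousOn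
    hf.continuous.continuousOn
  refine ⟨max M 0, le_max_right _ _, fun y hy => ?_⟩
  have key : ∀ u : Fin n → ℂ, ‖u‖ = 1 → ‖fderiv ℂ f y u‖ ≤ max M 0 := by
    intro u hu
    set φ : ℂ → ℂ := fun l => f (y + l • u) with hφ
    have hφd : Differentiable ℂ φ := by
      apply hf.comp
      fun_prop
    have hder : deriv φ 0 = fderiv ℂ f y u := by
      have h1 : HasDerivAt (fun l : ℂ => y + l • u) u 0 := by
        have := ((hasDerivAt_id (0:ℂ)).smul_const u).const_add y
        simpa using this
      have h2 : HasFDerivAt f (fderiv ℂ f (y + (0:ℂ) • u)) (y + (0:ℂ) • u) :=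
        (hf _).hasFDerivAt
      have h3 := h2.comp_hasDerivAt (0:ℂ) h1
      have h4 := h3.deriv
      simpa [hφ, Function.comp_def] using h4
    have hbound : ∀ l ∈ sphere (0:ℂ) 1, ‖φ l‖ ≤ max M 0 := by
      intro l hl
      have hln : ‖l‖ = 1 := by simpa using hl
      refine (hM _ ?_).trans (le_max_left _ _)
      rw [mem_closedBall] at *
      calc dist (y + l • u) z ≤ dist (y + l • u) y + dist y z := dist_triangle _ _ _
        _ ≤ 1 + ρ := by
          rw [dist_eq_norm, add_sub_cancel_left, norm_smul, hln, hu, one_mul]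
          gcongr
        _ = ρ + 1 := by ring
    have hc := Complex.norm_deriv_le_of_forall_mem_sphere_norm_le one_pos hφd.diffContOnCl hbound
    rw [hder, div_one] at hc
    exact hc
  refine ContinuousLinearMap.opNorm_le_bound _ (le_max_right _ _) fun u => ?_
  by_cases hu : u = 0
  · simp [hu]
  have hun : ‖u‖ ≠ 0 := norm_ne_zero_iff.mpr hu
  have h1 := key (((‖u‖⁻¹ : ℝ) : ℂ) • u) (by
    rw [norm_smul, Complex.norm_real, norm_inv, norm_norm, inv_mul_cancel₀ hun])
  rw [map_smul, norm_smul, Complex.norm_real, norm_inv, norm_norm, inv_mul_le_iff₀ (by positivity)] at h1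
  linarith

/-- the directional derivative of an entire function of several variables is entire -/
lemma differentiable_fderiv_apply {f : (Fin n → ℂ) → ℂ} (hf : Differentiable ℂ f) (v : Fin n → ℂ) :
    Differentiable ℂ (fun z => fderiv ℂ f z v) := by
  intro z₀
  set κ : ℝ → ℂ := fun θ => deriv (circleMap 0 1) θ * ((circleMap 0 1 θ) ^ 2)⁻¹ with hκ
  have hκc : Continuous κ := by
    have h1 := continuous_circleMap 0 1
    simp only [hκ, deriv_circleMap]
    apply Continuous.mul (by fun_prop)
    apply Continuous.inv₀ (by fun_prop)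
    intro θ
    apply pow_ne_zero
    exact circleMap_ne_center one_ne_zero
  have hκn : ∀ θ, ‖κ θ‖ = 1 := by
    intro θ
    simp [hκ, deriv_circleMap]
  -- Cauchy formula
  have hform : ∀ z : Fin n → ℂ, fderiv ℂ f z v =
      (2 * π * I : ℂ)⁻¹ * ∫ θ in (0:ℝ)..(2 * π), κ θ * f (z + circleMap 0 1 θ • v) := by
    intro z
    set φ : ℂ → ℂ := fun l => f (z + l • v) with hφ
    have hφd : Differentiable ℂ φ := by
      apply hf.comp
      fun_prop
    have hder : deriv φ 0 = fderiv ℂ f z v := by
      have h1 : HasDerivAt (fun l : ℂ => z + l • v) v 0 := by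
        have := ((hasDerivAt_id (0:ℂ)).smul_const v).const_add z
        simpa using this
      have h2 : HasFDerivAt f (fderiv ℂ f (z + (0:ℂ) • v)) (z + (0:ℂ) • v) :=
        (hf _).hasFDerivAt
      have h3 := h2.comp_hasDerivAt (0:ℂ) h1
      have h4 := h3.deriv
      simpa [hφ, Function.comp_def] using h4
    have h1 := (hφd.differentiableOn (s := closedBall 0 1)).deriv_eq_smul_circleIntegral one_pos
      (c := 0)
    have h2 : deriv φ 0 = (2 * π * I : ℂ)⁻¹ * ∮ z in C(0, 1), (1 / (z - 0) ^ 2) • φ z := by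
      rw [h1, smul_eq_mul, ← mul_assoc, inv_mul_cancel₀ two_pi_I_ne_zero, one_mul]
    rw [← hder, h2]
    congr 1
    unfold circleIntegral
    congr 1
    funext θ
    simp only [hκ, hφ, sub_zero, smul_eq_mul]
    ring
  have hfun : (fun z => fderiv ℂ f z v) = fun z =>
      (2 * π * I : ℂ)⁻¹ * ∫ θ in (0:ℝ)..(2 * π), κ θ * f (z + circleMap 0 1 θ • v) := by
    funext z; exact hform z
  rw [hfun]
  apply DifferentiableAt.const_mul
  obtain ⟨L, hL0, hL⟩ := exists_fderiv_bound hf z₀ (1 + ‖v‖)
  have : ProperSpace ((Fin n → ℂ) →L[ℂ] ℂ) := FiniteDimensional.proper ℂ _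
  have hmain := intervalIntegral.hasFDerivAt_integral_of_dominated_loc_of_lip (𝕜 := ℂ)
    (μ := volume) (a := 0) (b := 2 * π) (s := ball z₀ 1) (bound := fun _ => L)
    (F := fun z θ => κ θ * f (z + circleMap 0 1 θ • v))
    (F' := fun θ => κ θ • fderiv ℂ f (z₀ + circleMap 0 1 θ • v)) (x₀ := z₀)
    (ball_mem_nhds z₀ one_pos) ?_ ?_ ?_ ?_ ?_ ?_
  · exact hmain.2.differentiableAt
  · refine Eventually.of_forall fun z => Continuous.aestronglyMeasurable ?_
    apply hκc.mul
    apply hf.continuous.comp
    have := continuous_circleMap 0 1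
    fun_prop
  · apply Continuous.intervalIntegrable
    apply hκc.mul
    apply hf.continuous.comp
    have := continuous_circleMap 0 1
    fun_prop
  · apply Measurable.aestronglyMeasurable
    apply Measurable.smul hκc.measurable
    apply (measurable_fderiv ℂ f).comp
    apply Continuous.measurable
    have := continuous_circleMap 0 1
    fun_prop
  · refine Eventually.of_forall fun θ _ => ?_
    rw [Real.nnabs_of_nonneg hL0]
    apply (convex_ball z₀ 1).lipschitzOnWith_of_nnnorm_fderiv_le (𝕜 := ℂ)
    · intro z _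
      apply DifferentiableAt.const_mul
      apply DifferentiableAt.comp
      · exact hf _
      · fun_prop
    · intro z hz
      have h1 : HasFDerivAt (fun z => κ θ * f (z + circleMap 0 1 θ • v))
          (κ θ • fderiv ℂ f (z + circleMap 0 1 θ • v)) z := by
        have h2 : HasFDerivAt f (fderiv ℂ f (z + circleMap 0 1 θ • v)) (z + circleMap 0 1 θ • v) :=
          (hf _).hasFDerivAt
        have h3 : HasFDerivAt (fun z : Fin n → ℂ => z + circleMap 0 1 θ • v)
            (ContinuousLinearMap.id ℂ _) z := (hasFDerivAt_id z).add_const _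
        have h4 := (h2.comp z h3).const_mul (κ θ)
        simpa [Function.comp_def] using h4
      rw [h1.fderiv]
      rw [← NNReal.coe_le_coe, coe_nnnorm, norm_smul, hκn, one_mul, Real.coe_toNNReal _ hL0]
      apply hL
      rw [mem_ball] at hz
      rw [mem_closedBall]
      calc dist (z + circleMap 0 1 θ • v) z₀ ≤ dist (z + circleMap 0 1 θ • v) z + dist z z₀ :=
            dist_triangle _ _ _
        _ ≤ ‖v‖ + 1 := by
          gcongr
          rw [dist_eq_norm, add_sub_cancel_left, norm_smul]
          simp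
        _ = 1 + ‖v‖ := by ring
  · exact intervalIntegrable_const
  · refine Eventually.of_forall fun θ _ => ?_
    have h2 : HasFDerivAt f (fderiv ℂ f (z₀ + circleMap 0 1 θ • v)) (z₀ + circleMap 0 1 θ • v) :=
      (hf _).hasFDerivAt
    have h3 : HasFDerivAt (fun z : Fin n → ℂ => z + circleMap 0 1 θ • v)
        (ContinuousLinearMap.id ℂ _) z₀ := (hasFDerivAt_id z₀).add_const _
    have h4 := (h2.comp z₀ h3).const_mul (κ θ)
    simpa [Function.comp_def] using h4

lemma differentiable_radial {f : (Fin n → ℂ) → ℂ} (hf : Differentiable ℂ f) :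
    Differentiable ℂ (radial f) := by
  unfold radial
  apply Differentiable.fun_sum
  intro k _
  apply Differentiable.mul
  · fun_prop
  · exact differentiable_fderiv_apply hf _

lemma differentiable_radial_iterate {f : (Fin n → ℂ) → ℂ} (hf : Differentiable ℂ f) (N : ℕ) :
    Differentiable ℂ (radial^[N] f) := by
  induction N with
  | zero => simpa using hf
  | succ N ih =>
    rw [Function.iterate_succ_apply']
    exact differentiable_radial ih

/-- finite exponent: the chain of equivalences -/
lemma lintegral_iff {α : ℝ} (hα : 0 < α) {f : (Fin n → ℂ) → ℂ} (hf : Differentiable ℂ f)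
    {p : ℝ} (hp : 0 < p) (N : ℕ) :
    (∫⁻ z, ENNReal.ofReal (Phi α 0 f z ^ p) < ∞) ↔
      ∫⁻ z, ENNReal.ofReal (Phi α N (radial^[N] f) z ^ p) < ∞ := by
  induction N with
  | zero => simp
  | succ N ih =>
    rw [ih, Function.iterate_succ_apply']
    have hd := differentiable_radial_iterate hf N
    exact ⟨fun h => forward_lintegral hα N hd hp h,
      fun h => reverse_lintegral hα N hd (differentiable_radial hd) hp h⟩

/-- infinite exponent, one step -/
lemma bounded_step {α : ℝ} (hα : 0 < α) (m : ℕ) {g : (Fin n → ℂ) → ℂ} (hg : Differentiable ℂ g) :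
    (∃ M : ℝ, ∀ z, Phi α m g z ≤ M) ↔ ∃ M : ℝ, ∀ z, Phi α (m + 1) (radial g) z ≤ M := by
  constructor
  · rintro ⟨M, hM⟩
    exact ⟨_, fun z => forward_pointwise hα m hg z M fun u _ => hM u⟩
  · rintro ⟨M, hM⟩
    have hM0 : 0 ≤ M := (Phi_nonneg α (m + 1) (radial g) 0).trans (hM 0)
    set R : ℝ := max 2 (4 / α) with hR
    have hR2 : 2 ≤ R := le_max_left _ _
    have hRα : 4 / α ≤ R := le_max_right _ _
    have hexp : Real.exp (-(α * R / 2)) ≤ 1 / 2 := by
      rw [div_le_iff₀ hα] at hRα
      have h5 := Real.add_one_le_exp (α * R / 2)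
      rw [Real.exp_neg, inv_eq_one_div, div_le_div_iff₀ (Real.exp_pos _) (by norm_num)]
      linarith
    have hcont := continuous_Phi α m hg.continuous
    obtain ⟨M0, hM0b⟩ := (isCompact_SK (n := n) R).exists_bound_of_continuousOn hcont.continuousOn
    refine ⟨max M0 (10 / α * M), fun z => ?_⟩
    -- choose `K` with `z` in `SK K`
    set K : ℝ := Real.sqrt (sqn z) with hK
    have hzK : z ∈ SK n K := by
      show sqn z ≤ K ^ 2
      rw [hK, Real.sq_sqrt (sqn_nonneg z)]
    obtain ⟨y, hyK, hy⟩ := (isCompact_SK K).exists_isMaxOn ⟨z, hzK⟩ hcont.continuousOn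
    refine (hy hzK).trans ?_
    by_cases hyR : y ∈ SK n R
    · have := hM0b y hyR
      rw [Real.norm_eq_abs] at this
      exact (le_abs_self _).trans (this.trans (le_max_left _ _))
    · refine le_trans ?_ (le_max_right _ _)
      have hyR' : R ^ 2 < sqn y := not_le.mp hyR
      set t : ℝ := Real.sqrt (sqn y) with ht
      have hyt : sqn y = t ^ 2 := (Real.sq_sqrt (sqn_nonneg y)).symm
      have ht0 : 0 ≤ t := Real.sqrt_nonneg _
      have htR : R ≤ t := by
        rw [hyt] at hyR'
        exact (abs_le_of_sq_le_sq' hyR'.le ht0).2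
      have ht2 : 2 ≤ t := hR2.trans htR
      have h1 := reverse_pointwise hα m hg y t ht2 hyt M (fun u _ => hM u)
      have hmem : (((1 - 1 / t : ℝ) : ℂ) • y) ∈ SK n K := by
        have := (shift_geometry y (((1 - 1 / t : ℝ) : ℂ) • y) ht2 hyt
          (mem_ball_self (by positivity))).2
        exact this.trans hyK
      have h2 : Phi α m g (((1 - 1 / t : ℝ) : ℂ) • y) ≤ Phi α m g y := hy hmem
      have h3 : Real.exp (-(α * t / 2)) ≤ 1 / 2 := by
        refine le_trans ?_ hexp
        gcongr
      have h4 := Phi_nonneg α m g (((1 - 1 / t : ℝ) : ℂ) • y)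
      have h5 : Real.exp (-(α * t / 2)) * Phi α m g (((1 - 1 / t : ℝ) : ℂ) • y) ≤
          1 / 2 * Phi α m g y := by gcongr
      have h6 : 10 / α * M = 2 * (5 / α * M) := by ring
      linarith

lemma bounded_iff {α : ℝ} (hα : 0 < α) {f : (Fin n → ℂ) → ℂ} (hf : Differentiable ℂ f) (N : ℕ) :
    (∃ M : ℝ, ∀ z, Phi α 0 f z ≤ M) ↔ ∃ M : ℝ, ∀ z, Phi α N (radial^[N] f) z ≤ M := by
  induction N with
  | zero => simp
  | succ N ih =>
    rw [ih, Function.iterate_succ_apply']
    exact bounded_step hα N (differentiable_radial_iterate hf N)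

end Pool.Agent.Hhelper23.Fock
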